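import Mathlib
import Pool.Agent.Helper26.FU.Loc
import Pool.Agent.Helper26.FU.Core

/-!
# FV: maps over `ℂ` with good reduction under an embedding in the algebraic closure of `ℚ_p`
-/

set_option autoImplicit false

namespace Pool.Agent.Helper26.FV

open MvPolynomial Pool.Agent.Helper86.DML Pool.Agent.Helper26.FU Pool.Agent.Helper26.FD

noncomputable section

variable {p : ℕ} [hp : Fact p.Prime] {n : ℕ}

/-- a map and a point are scaled -/
theorem iterate_scale_pt {k : Type*} [Field k] {d : ℕ} {P : Fin n → MvPolynomial (Fin n) k}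
    (hP : ∀ i, (P i).IsHomogeneous d) {t : k} (ht : t ≠ 0) (y : Fin n → k) (m : ℕ) :
    ∃ l : k, l ≠ 0 ∧ (pmap P)^[m] (fun i => t * y i) = fun i => l * (pmap P)^[m] y i := by
  have h := iterate_scale hP (one_ne_zero (α := k)) ht y m
  simp only [C_1, one_mul] at h
  exact h

/-- **The core.** -/
theorem coreC (hp3 : 3 ≤ p) (k n d D δ : ℕ) (hd : 1 ≤ d) : ∃ K : ℕ,
    ∀ (L : Subalgebra ℚ_[p] (PadicAlgCl p)) [FiniteDimensional ℚ_[p] L],
      Module.finrank ℚ_[p] L ≤ D →
    ∀ P : Fin k → Fin n → MvPolynomial (Fin n) ℂ, (∀ b i, (P b i).IsHomogeneous d) →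
    ∀ τ : ℂ →+* PadicAlgCl p, (∀ b i t, ‖τ (coeff t (P b i))‖ ≤ 1) →
      (∀ b i t, τ (coeff t (P b i)) ∈ L) →
      (∀ b, GoodPad (L : Set (PadicAlgCl p)) (fun i => MvPolynomial.map τ (P b i))) →
    ∀ α : Fin k → Fin n → ℂ, (∀ b, α b ≠ 0) → (∀ b i j, τ (α b i / α b j) ∈ L) →
    ∀ G : MvPolynomial (Fin k × Fin n) ℂ, MultiHom G → G.totalDegree ≤ δ → ∀ r : ℕ,
      {m | eval (fun c => (pmap (P c.1))^[bd (k * n) p D + r +
        (bd (k * n) p D).factorial * (bd (k * n) p D).factorial * m] (α c.1) c.2) G = 0}.encard ≤ K ∨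
        ∀ m, eval (fun c => (pmap (P c.1))^[bd (k * n) p D + r +
          (bd (k * n) p D).factorial * (bd (k * n) p D).factorial * m] (α c.1) c.2) G = 0 := by
  classical
  obtain ⟨K, hK⟩ := main_loc hp3 k n d D hd (expSet k n δ)
  refine ⟨K, ?_⟩
  intro L _ hL P hP τ hP1 hPL hgood α hα hαL G hG hGδ r
  obtain ⟨g, hg⟩ := hG
  -- the largest coordinates
  have hmax : ∀ b, ∃ i₀, ∀ i, ‖τ (α b i)‖ ≤ ‖τ (α b i₀)‖ := by
    intro b
    have hne : (Finset.univ : Finset (Fin n)).Nonempty := by
      obtain ⟨i, -⟩ := Function.ne_iff.1 (hα b)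
      exact ⟨i, Finset.mem_univ i⟩
    obtain ⟨i₀, -, h⟩ := Finset.exists_max_image Finset.univ (fun i => ‖τ (α b i)‖) hne
    exact ⟨i₀, fun i => h i (Finset.mem_univ i)⟩
  choose i₀ hmax using hmax
  have hα0 : ∀ b, τ (α b (i₀ b)) ≠ 0 := by
    intro b h
    apply hα b
    funext i
    have h1 := hmax b i
    rw [h, norm_zero] at h1
    exact (map_eq_zero τ).1 (norm_le_zero_iff.1 h1)
  have hα0' : ∀ b, α b (i₀ b) ≠ 0 := fun b h => hα0 b (by rw [h, map_zero])
  let β : Fin k → Fin n → PadicAlgCl p := fun b i => τ (α b i / α b (i₀ b))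
  have hβ : ∀ b i, ‖β b i‖ ≤ 1 := by
    intro b i
    simp only [β]
    rw [map_div₀, norm_div, div_le_one (norm_pos_iff.2 (hα0 b))]
    exact hmax b i
  have hβ1 : ∀ b, β b (i₀ b) = 1 := by
    intro b
    simp only [β]
    rw [div_self (hα0' b), map_one]
  have h1 := hK L hL (fun b i => MvPolynomial.map τ (P b i)) (by
    intro b i t
    rw [coeff_map]
    exact hP1 b i t) (by
    intro b i t
    rw [coeff_map]
    exact hPL b i t) (by
    intro b i
    exact ((hP b i).map τ).totalDegree_le) hgood β hβ (fun b i => hαL b i (i₀ b))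
    (fun b => ⟨i₀ b, by rw [hβ1, norm_one]⟩)
    (MvPolynomial.map τ G)
    ((support_map_subset _ _).trans (support_subset_expSet hGδ)) r
  -- comparison
  have hβt : ∀ b, β b = fun i => (τ (α b (i₀ b)))⁻¹ * τ (α b i) := by
    intro b
    funext i
    simp only [β]
    rw [map_div₀, div_eq_inv_mul]
  have hiff : ∀ m, eval (fun c : Fin k × Fin n =>
      (pmap (fun i => MvPolynomial.map τ (P c.1 i)))^[m] (β c.1) c.2) (MvPolynomial.map τ G) = 0 ↔
      eval (fun c : Fin k × Fin n => (pmap (P c.1))^[m] (α c.1) c.2) G = 0 := by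
    intro m
    have h2 : ∀ b, ∃ l : PadicAlgCl p, l ≠ 0 ∧
        (pmap (fun i => MvPolynomial.map τ (P b i)))^[m] (β b) =
        fun i => l * τ ((pmap (P b))^[m] (α b) i) := by
      intro b
      rw [hβt]
      obtain ⟨l, hl, h2⟩ := iterate_scale_pt (P := fun i => MvPolynomial.map τ (P b i))
        (d := d) (fun i => (hP b i).map τ) (inv_ne_zero (hα0 b)) (fun i => τ (α b i)) m
      rw [h2, Pool.Agent.Helper87.LD.pmap_map_iterate]
      exact ⟨l, hl, rfl⟩
    choose l hl h2 using h2
    simp only [h2]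
    have h3 := eval_multi (MultiHom.map hg τ) l
      (fun b i => τ ((pmap (P b))^[m] (α b) i))
    have h4 : eval (fun c : Fin k × Fin n => τ ((pmap (P c.1))^[m] (α c.1) c.2))
        (MvPolynomial.map τ G) =
        τ (eval (fun c : Fin k × Fin n => (pmap (P c.1))^[m] (α c.1) c.2) G) := by
      rw [eval_map, eval₂_comp]
      rfl
    rw [h3, h4]
    constructor
    · intro h5
      exact (map_eq_zero τ).1 ((mul_eq_zero.1 h5).resolve_left
        (Finset.prod_ne_zero_iff.2 fun b _ => pow_ne_zero _ (hl b)))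
    · intro h5
      rw [h5, map_zero, mul_zero]
  simp only [hiff] at h1
  exact h1

/-- good reduction implies that there is no common zero -/
theorem isEndoC {d : ℕ} (P : Fin n → MvPolynomial (Fin n) ℂ) (hP : ∀ i, (P i).IsHomogeneous d)
    (τ : ℂ →+* PadicAlgCl p) (hgood : GoodPad (Set.univ : Set (PadicAlgCl p))
      (fun i => MvPolynomial.map τ (P i))) (z : Fin n → ℂ) (hz : ∀ i, eval z (P i) = 0) :
    z = 0 := by
  by_contra hne0
  have hσ0 : (fun i => τ (z i)) ≠ 0 := by
    intro h
    apply hne0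
    funext i
    exact (map_eq_zero τ).1 (congrFun h i)
  obtain ⟨i₀, t, ht, hnorm, hone⟩ := exists_primitive_vec hσ0
  obtain ⟨i, hi⟩ := (hgood (fun i => t * τ (z i)) (fun i => Set.mem_univ _) hnorm
    ⟨i₀, by rw [hone, norm_one]⟩).1
  rw [eval_smul_hom' ((hP i).map τ), ← Pool.Agent.Helper87.LD.eval_hom, hz, map_zero, mul_zero,
    norm_zero] at hi
  exact zero_ne_one hi

/-- finitely many exceptional numbers and progressions which start early -/
theorem ap_of_dich_early (R : Set ℕ) {W Q K : ℕ} (hQ : 1 ≤ Q)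
    (h : ∀ r, {k | W + r + Q * k ∈ R}.encard ≤ K ∨ ∀ k, W + r + Q * k ∈ R) :
    ∃ E T : Finset ℕ, E.card ≤ W + Q * K ∧ (∀ a ∈ T, a < W + Q) ∧
      R = {n | n ∈ E ∨ ∃ a ∈ T, ∃ k, n = a + Q * k} := by
  classical
  have h1 : ∀ r, ∃ E : Finset ℕ, E.card ≤ K ∧ ((∀ k, W + r + Q * k ∈ R) ∨
      {n | n ∈ R ∧ ∃ k, n = W + r + Q * k} = E) := by
    intro r
    rcases h r with h1 | h1
    · have hfin : {k | W + r + Q * k ∈ R}.Finite :=
        Set.finite_of_encard_le_coe h1
      refine ⟨hfin.toFinset.image fun k => W + r + Q * k, ?_, Or.inr ?_⟩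
      · refine Finset.card_image_le.trans ?_
        have h2 := hfin.encard_eq_coe_toFinset_card
        rw [h2] at h1
        exact_mod_cast h1
      · ext n
        rw [Finset.mem_coe, Finset.mem_image]
        constructor
        · rintro ⟨hn, k, rfl⟩
          exact ⟨k, hfin.mem_toFinset.2 hn, rfl⟩
        · rintro ⟨k, hk, rfl⟩
          exact ⟨hfin.mem_toFinset.1 hk, k, rfl⟩
    · exact ⟨∅, by simp, Or.inl h1⟩
  choose E hE1 hE2 using h1
  refine ⟨((Finset.range W).filter fun n => n ∈ R) ∪
    (Finset.range Q).biUnion (fun r => if (∀ k, W + r + Q * k ∈ R) then ∅ else E r),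
    ((Finset.range Q).filter fun r => ∀ k, W + r + Q * k ∈ R).image fun r => W + r, ?_, ?_, ?_⟩
  · refine (Finset.card_union_le _ _).trans ?_
    refine Nat.add_le_add ?_ ?_
    · refine (Finset.card_filter_le _ _).trans ?_
      rw [Finset.card_range]
    · refine (Finset.card_biUnion_le).trans ?_
      refine (Finset.sum_le_sum (g := fun _ => K) fun r _ => ?_).trans ?_
      · split_ifs
        · simp
        · exact hE1 r
      · rw [Finset.sum_const, Finset.card_range, smul_eq_mul]
  · intro a ha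
    rw [Finset.mem_image] at ha
    obtain ⟨r, hr, rfl⟩ := ha
    have := Finset.mem_range.1 (Finset.mem_filter.1 hr).1
    omega
  · ext n
    constructor
    · intro hn
      by_cases hlt : n < W
      · left
        rw [Finset.mem_union]
        left
        exact Finset.mem_filter.2 ⟨Finset.mem_range.2 hlt, hn⟩
      · have hr : (n - W) % Q < Q := Nat.mod_lt _ hQ
        have hn' : n = W + (n - W) % Q + Q * ((n - W) / Q) := by
          have := Nat.mod_add_div (n - W) Q
          omega
        by_cases hall : ∀ k, W + (n - W) % Q + Q * k ∈ R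
        · right
          refine ⟨W + (n - W) % Q, ?_, _, hn'⟩
          rw [Finset.mem_image]
          exact ⟨_, Finset.mem_filter.2 ⟨Finset.mem_range.2 hr, hall⟩, rfl⟩
        · left
          rw [Finset.mem_union, Finset.mem_biUnion]
          right
          refine ⟨_, Finset.mem_range.2 hr, ?_⟩
          rw [if_neg hall]
          rcases hE2 ((n - W) % Q) with h2 | h2
          · exact absurd h2 hall
          · rw [← Finset.mem_coe, ← h2]
            exact ⟨hn, _, hn'⟩
    · rintro (hn | ⟨a, ha, k, rfl⟩)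
      · rw [Finset.mem_union, Finset.mem_biUnion] at hn
        rcases hn with hn | ⟨r, hr, hn⟩
        · exact (Finset.mem_filter.1 hn).2
        · split_ifs at hn with hall
          · exact absurd hn (Finset.notMem_empty _)
          · rcases hE2 r with h2 | h2
            · exact absurd h2 hall
            · rw [← Finset.mem_coe, ← h2] at hn
              exact hn.1
      · rw [Finset.mem_image] at ha
        obtain ⟨r, hr, rfl⟩ := ha
        exact (Finset.mem_filter.1 hr).2 k

end

end Pool.Agent.Helper26.FV
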