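import Mathlib
import Pool.Agent.Helper26.FU.Loc
import Pool.Agent.Helper87.FK.Cpx

/-!
# FV: maps with good reduction over the valuation ring of the algebraic closure of `ℚ_p`
-/

set_option autoImplicit false

namespace Pool.Agent.Helper26.FV

open MvPolynomial Pool.Agent.Helper86.DML Pool.Agent.Helper26.FU
open Pool.Agent.Helper87.FK (GoodF gm gm_map gm_comp gm_comp_iterate Oc mm kk mem_Oc mem_mm)

noncomputable section

variable {p : ℕ} [hp : Fact p.Prime] {n : ℕ}

theorem pmap_map {B R : Type*} [CommRing B] [CommRing R] (ψ : B →+* R)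
    (F : Fin n → MvPolynomial (Fin n) B) : pmap (fun i => map ψ (F i)) = gm ψ F := by
  funext x i
  rw [pmap, gm, eval_map]
  rfl

/-- **Good reduction.** -/
theorem goodPad_of_goodF {B k₀ : Type} [CommRing B] [Field k₀] (q : B →+* k₀)
    (hq : Function.Surjective q) (ψ : B →+* PadicAlgCl p) (hψ : ∀ b, ‖ψ b‖ ≤ 1)
    (hψq : ∀ b, q b = 0 → ‖ψ b‖ < 1) (F : Fin n → MvPolynomial (Fin n) B)
    (hG : GoodF fun i => map q (F i)) (L : Set (PadicAlgCl p)) :
    GoodPad L (fun i => map ψ (F i)) := by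
  classical
  intro x _ hx1 ⟨i₁, hi₁⟩
  let ψ' : B →+* Oc p :=
    { toFun := fun b => ⟨ψ b, mem_Oc.2 (hψ b)⟩
      map_one' := Subtype.ext (by simp)
      map_mul' := fun x y => Subtype.ext (by simp)
      map_zero' := Subtype.ext (by simp)
      map_add' := fun x y => Subtype.ext (by simp) }
  let π : Oc p →+* kk p := Ideal.Quotient.mk (mm p)
  obtain ⟨φ, hφ⟩ : ∃ φ : k₀ →+* kk p, φ.comp q = π.comp ψ' := by
    refine ⟨q.liftOfSurjective hq ⟨π.comp ψ', fun b hb => ?_⟩, ?_⟩
    · have h1 : ‖ψ b‖ < 1 := hψq b hb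
      exact Ideal.Quotient.eq_zero_iff_mem.2 h1
    · exact RingHom.liftOfRightInverse_comp _ _ _ _
  let ι : Oc p →+* PadicAlgCl p := (Oc p).val
  have hιψ : ι.comp ψ' = ψ := rfl
  let x' : Fin n → Oc p := fun i => ⟨x i, mem_Oc.2 (hx1 i)⟩
  have hunit : ∀ z : Oc p, π z ≠ 0 → ‖(z : PadicAlgCl p)‖ = 1 := by
    intro z hz
    refine le_antisymm (mem_Oc.1 z.2) (not_lt.1 fun hlt => hz ?_)
    exact Ideal.Quotient.eq_zero_iff_mem.2 hlt
  have hne : (fun i => π (x' i)) ≠ 0 := by
    intro h
    have h1 : x' i₁ ∈ mm p := Ideal.Quotient.eq_zero_iff_mem.1 (congrFun h i₁)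
    have h2 : ‖x i₁‖ < 1 := h1
    rw [hi₁] at h2
    exact lt_irrefl _ h2
  -- the iterates
  have hit : ∀ m, (pmap (fun i => map ψ (F i)))^[m] x = fun i => ι ((gm ψ' F)^[m] x' i) := by
    intro m
    rw [pmap_map]
    exact gm_comp_iterate ψ' ι F m x'
  have hred : ∀ m, (gm φ (fun i => map q (F i)))^[m] (fun i => π (x' i)) =
      fun i => π ((gm ψ' F)^[m] x' i) := by
    intro m
    have h1 : gm φ (fun i => map q (F i)) = gm (π.comp ψ') F := by
      funext y
      rw [gm_map, hφ]
    rw [h1]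
    exact gm_comp_iterate ψ' π F m x'
  refine ⟨?_, fun m hm hper => ?_⟩
  · have h1 := (hG (kk p) φ _ hne).1
    obtain ⟨i, hi⟩ := Function.ne_iff.1 h1
    have h2 := congrFun (hred 1) i
    rw [Function.iterate_one, Function.iterate_one] at h2
    rw [h2] at hi
    refine ⟨i, ?_⟩
    have h3 := congrFun (hit 1) i
    rw [Function.iterate_one, Function.iterate_one] at h3
    have h4 : eval x (map ψ (F i)) = ι (gm ψ' F x' i) := h3
    rw [h4]
    exact hunit _ hi
  · have h1 : (gm φ (fun i => map q (F i)))^[m] (fun i => π (x' i)) = fun i => π (x' i) := by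
      rw [hred]
      funext i
      rw [Ideal.Quotient.eq, mem_mm]
      have h2 := hper i
      rw [hit] at h2
      exact h2
    have h2 := (hG (kk p) φ _ hne).2 m hm h1
    have h3 : (Matrix.of fun i j => eval₂Hom φ (fun i => π (x' i)) (pderiv j (map q (F i)))) =
        π.mapMatrix (Matrix.of fun i j => eval₂Hom ψ' x' (pderiv j (F i))) := by
      ext i j
      rw [RingHom.mapMatrix_apply, Matrix.map_apply, Matrix.of_apply, Matrix.of_apply, pderiv_map,
        coe_eval₂Hom, eval₂_map, hφ, map_eval₂Hom]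
      rfl
    rw [h3, ← RingHom.map_det] at h2
    have h4 := hunit _ h2
    have h5 : (Matrix.of fun i j => eval x (pderiv j (map ψ (F i)))) =
        ι.mapMatrix (Matrix.of fun i j => eval₂Hom ψ' x' (pderiv j (F i))) := by
      ext i j
      rw [RingHom.mapMatrix_apply, Matrix.map_apply, Matrix.of_apply, Matrix.of_apply, pderiv_map,
        eval_map, map_eval₂Hom]
      rfl
    rw [h5, ← RingHom.map_det]
    exact h4

end

end Pool.Agent.Helper26.FV
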