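import Pool.Agent.Helper89.FV.Iface

/-!
# Definability in a transitive model of ZFC (block DF, helper26)
-/

namespace Pool.Agent.Helper89.FV

open Pool.Agent.Helper96.Fc

/-- put `x` in front of the assignment `v` -/
def cns (x : ZFSet.{0}) (v : ℕ → ZFSet.{0}) : ℕ → ZFSet.{0}
  | 0 => x
  | n + 1 => v n

/-- the relations on the assignments `v : ℕ → N` that are definable in `N` (without parameters:
parameters are passed as values of `v`) -/
inductive Dfb (N : Set ZFSet.{0}) : ((ℕ → ZFSet.{0}) → Prop) → Prop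
  | mem (i j : ℕ) : Dfb N (fun v => v i ∈ v j)
  | eq (i j : ℕ) : Dfb N (fun v => v i = v j)
  | neg {R : (ℕ → ZFSet.{0}) → Prop} : Dfb N R → Dfb N (fun v => ¬ R v)
  | and {R S : (ℕ → ZFSet.{0}) → Prop} : Dfb N R → Dfb N S → Dfb N (fun v => R v ∧ S v)
  | all {R : (ℕ → ZFSet.{0}) → Prop} : Dfb N R → Dfb N (fun v => ∀ x ∈ N, R (cns x v))
  | congr {R S : (ℕ → ZFSet.{0}) → Prop} : Dfb N R →
      (∀ v, (∀ i, v i ∈ N) → (R v ↔ S v)) → Dfb N S

theorem cns_mem {N : Set ZFSet.{0}} {x : ZFSet.{0}} {v : ℕ → ZFSet.{0}} (hx : x ∈ N)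
    (hv : ∀ i, v i ∈ N) : ∀ i, cns x v i ∈ N
  | 0 => hx
  | i + 1 => hv i

/-- lift of a renaming -/
def liftR (f : ℕ → ℕ) : ℕ → ℕ
  | 0 => 0
  | n + 1 => f n + 1

theorem cns_ren (x : ZFSet.{0}) (v : ℕ → ZFSet.{0}) (f : ℕ → ℕ) :
    cns x (fun i => v (f i)) = fun i => cns x v (liftR f i) := by
  funext i
  cases i <;> rfl

theorem Dfb.ren {N : Set ZFSet.{0}} {R : (ℕ → ZFSet.{0}) → Prop} (h : Dfb N R) (f : ℕ → ℕ) :
    Dfb N (fun v => R (fun i => v (f i))) := by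
  induction h generalizing f with
  | mem i j => exact .mem _ _
  | eq i j => exact .eq _ _
  | neg _ ih => exact .neg (ih f)
  | and _ _ ih1 ih2 => exact .and (ih1 f) (ih2 f)
  | all _ ih =>
    refine .congr (.all (ih (liftR f))) ?_
    intro v _
    simp only [cns_ren]
  | congr _ h ih =>
    exact .congr (ih f) fun v hv => h _ fun i => hv (f i)

theorem Dfb.fml {N : Set ZFSet.{0}} {R : (ℕ → ZFSet.{0}) → Prop} (h : Dfb N R) :
    ∃ M : ℕ, ∀ m, M ≤ m → ∃ φ : Fml m, ∀ v : ℕ → ZFSet.{0}, (∀ i, v i ∈ N) →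
      (R v ↔ Sat N φ (fun i : Fin m => v i)) := by
  induction h with
  | mem i j =>
    refine ⟨max i j + 1, fun m hm => ⟨.mem ⟨i, by omega⟩ ⟨j, by omega⟩, fun v _ => ?_⟩⟩
    simp [Sat]
  | eq i j =>
    refine ⟨max i j + 1, fun m hm => ⟨.eq ⟨i, by omega⟩ ⟨j, by omega⟩, fun v _ => ?_⟩⟩
    simp [Sat]
  | neg _ ih =>
    obtain ⟨M, hM⟩ := ih
    refine ⟨M, fun m hm => ?_⟩
    obtain ⟨φ, hφ⟩ := hM m hm
    refine ⟨.neg φ, fun v hv => ?_⟩
    simp [Sat, hφ v hv]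
  | and _ _ ih1 ih2 =>
    obtain ⟨M1, hM1⟩ := ih1
    obtain ⟨M2, hM2⟩ := ih2
    refine ⟨max M1 M2, fun m hm => ?_⟩
    obtain ⟨φ, hφ⟩ := hM1 m (le_trans (le_max_left _ _) hm)
    obtain ⟨ψ, hψ⟩ := hM2 m (le_trans (le_max_right _ _) hm)
    refine ⟨.and φ ψ, fun v hv => ?_⟩
    simp [Sat, hφ v hv, hψ v hv]
  | all _ ih =>
    obtain ⟨M, hM⟩ := ih
    refine ⟨M, fun m hm => ?_⟩
    obtain ⟨φ, hφ⟩ := hM (m + 1) (by omega)
    refine ⟨.all φ, fun v hv => ?_⟩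
    simp only [Sat]
    refine forall₂_congr fun x hx => ?_
    rw [hφ _ (cns_mem hx hv)]
    have : (fun i : Fin (m + 1) => cns x v i) = Fin.cons x (fun i : Fin m => v i) := by
      funext i
      refine Fin.cases ?_ (fun i => ?_) i
      · rfl
      · simp [cns]
    rw [this]
  | congr _ h ih =>
    obtain ⟨M, hM⟩ := ih
    refine ⟨M, fun m hm => ?_⟩
    obtain ⟨φ, hφ⟩ := hM m hm
    exact ⟨φ, fun v hv => (h v hv).symm.trans (hφ v hv)⟩

/-- separation -/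
theorem Dfb.sep {N : Set ZFSet.{0}} (hN : IsZFC N) {R : (ℕ → ZFSet.{0}) → Prop} (h : Dfb N R)
    {v : ℕ → ZFSet.{0}} (hv : ∀ i, v i ∈ N) {a : ZFSet.{0}} (ha : a ∈ N) :
    ∃ b ∈ N, ∀ x, x ∈ b ↔ x ∈ a ∧ R (cns x v) := by
  obtain ⟨M, hM⟩ := h.fml
  obtain ⟨φ, hφ⟩ := hM (M + 1) (by omega)
  obtain ⟨b, hb, h2⟩ := hN.separation M φ (fun i => v i) (fun i => hv i) a ha
  have key : ∀ x ∈ N, (R (cns x v) ↔ Sat N φ (Fin.cons x (fun i : Fin M => v i))) := by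
    intro x hx
    rw [hφ _ (cns_mem hx hv)]
    have : (fun i : Fin (M + 1) => cns x v i) = Fin.cons x (fun i : Fin M => v i) := by
      funext i
      refine Fin.cases ?_ (fun i => ?_) i
      · rfl
      · simp [cns]
    rw [this]
  refine ⟨b, hb, fun x => ⟨fun hx => ?_, fun hx => ?_⟩⟩
  · have hxN := hN.trans b hb x hx
    have := (h2 x hxN).1 hx
    exact ⟨this.1, (key x hxN).2 this.2⟩
  · have hxN := hN.trans a ha x hx.1
    exact (h2 x hxN).2 ⟨hx.1, (key x hxN).1 hx.2⟩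

/-! ### Connectives -/

section

variable {N : Set ZFSet.{0}} {R S : (ℕ → ZFSet.{0}) → Prop}

theorem Dfb.or (h : Dfb N R) (h' : Dfb N S) : Dfb N (fun v => R v ∨ S v) :=
  .congr (.neg (.and (.neg h) (.neg h'))) fun v _ => by tauto

theorem Dfb.imp (h : Dfb N R) (h' : Dfb N S) : Dfb N (fun v => R v → S v) :=
  .congr (.neg (.and h (.neg h'))) fun v _ => by tauto

theorem Dfb.iff (h : Dfb N R) (h' : Dfb N S) : Dfb N (fun v => R v ↔ S v) :=
  .congr (.and (.imp h h') (.imp h' h)) fun v _ => by tauto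

theorem Dfb.ex (h : Dfb N R) : Dfb N (fun v => ∃ x ∈ N, R (cns x v)) :=
  .congr (.neg (.all (.neg h))) fun v _ => by
    constructor
    · intro h
      by_contra h1
      exact h fun x hx h2 => h1 ⟨x, hx, h2⟩
    · rintro ⟨x, hx, h1⟩ h2
      exact h2 x hx h1

/-- bounded quantifiers -/
theorem Dfb.exB (hN : IsZFC N) (j : ℕ) (h : Dfb N R) :
    Dfb N (fun v => ∃ x ∈ v j, R (cns x v)) :=
  .congr (.ex (.and (.mem 0 (j + 1)) h)) fun v hv => by
    constructor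
    · rintro ⟨x, -, h1, h2⟩
      exact ⟨x, h1, h2⟩
    · rintro ⟨x, h1, h2⟩
      exact ⟨x, hN.trans _ (hv j) _ h1, h1, h2⟩

theorem Dfb.allB (hN : IsZFC N) (j : ℕ) (h : Dfb N R) :
    Dfb N (fun v => ∀ x ∈ v j, R (cns x v)) :=
  .congr (.all (.imp (.mem 0 (j + 1)) h)) fun v hv => by
    constructor
    · intro h1 x hx
      exact h1 x (hN.trans _ (hv j) _ hx) hx
    · intro h1 x _ hx
      exact h1 x hx

end

/-! ### Pairs -/

theorem upair_mem {N : Set ZFSet.{0}} (hN : IsZFC N) {a b : ZFSet.{0}} (ha : a ∈ N)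
    (hb : b ∈ N) : ({a, b} : ZFSet.{0}) ∈ N := by
  obtain ⟨z, hz, h⟩ := hN.pairing a ha b hb
  have : z = {a, b} := by
    ext w
    rw [ZFSet.mem_pair]
    constructor
    · intro hw
      exact (h w (hN.trans z hz w hw)).1 hw
    · rintro (rfl | rfl)
      · exact (h _ ha).2 (Or.inl rfl)
      · exact (h _ hb).2 (Or.inr rfl)
  rwa [this] at hz

theorem singleton_mem {N : Set ZFSet.{0}} (hN : IsZFC N) {a : ZFSet.{0}} (ha : a ∈ N) :
    ({a} : ZFSet.{0}) ∈ N := by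
  rw [← ZFSet.pair_eq_singleton]
  exact upair_mem hN ha ha

theorem pair_mem_iff {N : Set ZFSet.{0}} (hN : IsZFC N) {a b : ZFSet.{0}} :
    ZFSet.pair a b ∈ N ↔ a ∈ N ∧ b ∈ N := by
  constructor
  · intro h
    have h1 : ({a, b} : ZFSet.{0}) ∈ N := hN.trans _ h _ (by simp [ZFSet.pair])
    exact ⟨hN.trans _ h1 _ (by simp), hN.trans _ h1 _ (by simp)⟩
  · rintro ⟨ha, hb⟩
    exact upair_mem hN (singleton_mem hN ha) (upair_mem hN ha hb)

theorem Dfb.upair {N : Set ZFSet.{0}} (hN : IsZFC N) (i j k : ℕ) :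
    Dfb N (fun v => v i = {v j, v k}) :=
  .congr (.all (.iff (.mem 0 (i + 1)) (.or (.eq 0 (j + 1)) (.eq 0 (k + 1))))) fun v hv => by
    constructor
    · intro h
      ext w
      rw [ZFSet.mem_pair]
      constructor
      · intro hw
        exact (h w (hN.trans _ (hv i) w hw)).1 hw
      · intro hw
        refine (h w ?_).2 hw
        rcases hw with rfl | rfl
        · exact hv j
        · exact hv k
    · intro h w _
      show w ∈ v i ↔ w = v j ∨ w = v k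
      rw [h, ZFSet.mem_pair]

/-- `v i = ⟨v j, v k⟩` -/
theorem Dfb.pair {N : Set ZFSet.{0}} (hN : IsZFC N) (i j k : ℕ) :
    Dfb N (fun v => v i = ZFSet.pair (v j) (v k)) :=
  .congr (.ex (.ex (.and (.upair hN 1 (j + 2) (j + 2)) (.and (.upair hN 0 (j + 2) (k + 2))
    (.upair hN (i + 2) 1 0))))) fun v hv => by
    constructor
    · rintro ⟨x, -, y, -, h1, h2, h3⟩
      have h1 : x = {v j, v j} := h1
      have h2 : y = {v j, v k} := h2
      have h3 : v i = {x, y} := h3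
      rw [h3, h1, h2, ZFSet.pair_eq_singleton]
      rfl
    · intro h
      refine ⟨{v j, v j}, upair_mem hN (hv j) (hv j), {v j, v k}, upair_mem hN (hv j) (hv k), ?_⟩
      refine ⟨rfl, rfl, ?_⟩
      show v i = {{v j, v j}, {v j, v k}}
      rw [h, ZFSet.pair_eq_singleton]
      rfl

/-- `⟨v i, v j⟩ ∈ v k` -/
theorem Dfb.pair_mem {N : Set ZFSet.{0}} (hN : IsZFC N) (i j k : ℕ) :
    Dfb N (fun v => ZFSet.pair (v i) (v j) ∈ v k) :=
  .congr (.ex (.and (.pair hN 0 (i + 1) (j + 1)) (.mem 0 (k + 1)))) fun v hv => by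
    constructor
    · rintro ⟨x, -, h1, h2⟩
      have h1 : x = ZFSet.pair (v i) (v j) := h1
      have h2 : x ∈ v k := h2
      rwa [← h1]
    · intro h
      exact ⟨_, (pair_mem_iff hN).2 ⟨hv i, hv j⟩, rfl, h⟩

/-! ### Power sets and products -/

theorem exists_powerset {N : Set ZFSet.{0}} (hN : IsZFC N) {a : ZFSet.{0}} (ha : a ∈ N) :
    ∃ c ∈ N, ∀ z, z ∈ c ↔ z ∈ N ∧ z ⊆ a := by
  obtain ⟨u, hu, h⟩ := hN.power a ha
  refine ⟨u, hu, fun z => ⟨fun hz => ?_, fun hz => ?_⟩⟩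
  · have hzN := hN.trans u hu z hz
    exact ⟨hzN, fun w hw => (h z hzN).1 hz w (hN.trans z hzN w hw) hw⟩
  · exact (h z hz.1).2 fun w _ hw => hz.2 hw

theorem exists_union {N : Set ZFSet.{0}} (hN : IsZFC N) {a b : ZFSet.{0}} (ha : a ∈ N)
    (hb : b ∈ N) : ∃ c ∈ N, ∀ z, z ∈ c ↔ z ∈ a ∨ z ∈ b := by
  obtain ⟨u, hu, h⟩ := hN.union _ (upair_mem hN ha hb)
  refine ⟨u, hu, fun z => ⟨fun hz => ?_, fun hz => ?_⟩⟩
  · obtain ⟨y, -, hy, hzy⟩ := (h z (hN.trans u hu z hz)).1 hz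
    rw [ZFSet.mem_pair] at hy
    rcases hy with rfl | rfl
    · exact Or.inl hzy
    · exact Or.inr hzy
  · rcases hz with hz | hz
    · exact (h z (hN.trans a ha z hz)).2 ⟨a, ha, by simp, hz⟩
    · exact (h z (hN.trans b hb z hz)).2 ⟨b, hb, by simp, hz⟩

/-- separation by a relation with two parameters -/
theorem sep2 {N : Set ZFSet.{0}} (hN : IsZFC N) {R : ZFSet.{0} → ZFSet.{0} → ZFSet.{0} → Prop}
    (h : Dfb N (fun v => R (v 0) (v 1) (v 2))) {a p q : ZFSet.{0}} (ha : a ∈ N) (hp : p ∈ N)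
    (hq : q ∈ N) : ∃ b ∈ N, ∀ x, x ∈ b ↔ x ∈ a ∧ R x p q :=
  h.sep hN (v := cns p (fun _ => q)) (cns_mem hp fun _ => hq) ha

/-- separation by a relation with four parameters -/
theorem sep4 {N : Set ZFSet.{0}} (hN : IsZFC N)
    {R : ZFSet.{0} → ZFSet.{0} → ZFSet.{0} → ZFSet.{0} → ZFSet.{0} → Prop}
    (h : Dfb N (fun v => R (v 0) (v 1) (v 2) (v 3) (v 4))) {a p q r s : ZFSet.{0}} (ha : a ∈ N)
    (hp : p ∈ N) (hq : q ∈ N) (hr : r ∈ N) (hs : s ∈ N) :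
    ∃ b ∈ N, ∀ x, x ∈ b ↔ x ∈ a ∧ R x p q r s :=
  h.sep hN (v := cns p (cns q (cns r (fun _ => s))))
    (cns_mem hp (cns_mem hq (cns_mem hr fun _ => hs))) ha

theorem exists_prod {N : Set ZFSet.{0}} (hN : IsZFC N) {a b : ZFSet.{0}} (ha : a ∈ N)
    (hb : b ∈ N) : ∃ c ∈ N, ∀ z, z ∈ c ↔ ∃ x ∈ a, ∃ y ∈ b, z = ZFSet.pair x y := by
  obtain ⟨u, hu, h1⟩ := exists_union hN ha hb
  obtain ⟨w, hw, h2⟩ := exists_powerset hN hu
  obtain ⟨t, ht, h3⟩ := exists_powerset hN hw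
  obtain ⟨c, hc, h4⟩ := sep2 hN
    (R := fun z p q => ∃ x ∈ p, ∃ y ∈ q, z = ZFSet.pair x y)
    (.exB hN 1 (.exB hN 3 (.pair hN 2 1 0))) ht ha hb
  refine ⟨c, hc, fun z => ?_⟩
  rw [h4]
  refine ⟨fun h => h.2, fun h => ⟨?_, h⟩⟩
  obtain ⟨x, hx, y, hy, rfl⟩ := h
  have hxN := hN.trans a ha x hx
  have hyN := hN.trans b hb y hy
  rw [h3]
  refine ⟨(pair_mem_iff hN).2 ⟨hxN, hyN⟩, ?_⟩
  intro s hs
  rw [ZFSet.pair, ZFSet.mem_pair] at hs
  rw [h2]
  rcases hs with rfl | rfl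
  · refine ⟨singleton_mem hN hxN, ?_⟩
    intro s hs
    rw [ZFSet.mem_singleton] at hs
    rw [hs, h1]
    exact Or.inl hx
  · refine ⟨upair_mem hN hxN hyN, ?_⟩
    intro s hs
    rw [ZFSet.mem_pair] at hs
    rw [h1]
    rcases hs with rfl | rfl
    · exact Or.inl hx
    · exact Or.inr hy

/-! ### Natural numbers -/

theorem mem_om {z : ZFSet.{0}} : z ∈ om ↔ ∃ n, z = nat n := by
  unfold om nat
  rw [Ordinal.mem_toZFSet_iff]
  constructor
  · rintro ⟨a, ha, rfl⟩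
    obtain ⟨n, rfl⟩ := Ordinal.lt_omega0.1 ha
    exact ⟨n, rfl⟩
  · rintro ⟨n, rfl⟩
    exact ⟨n, Ordinal.natCast_lt_omega0 n, rfl⟩

theorem nat_inj {m n : ℕ} (h : nat m = nat n) : m = n := by
  unfold nat at h
  exact_mod_cast Ordinal.toZFSet_injective h

theorem nat_zero : nat 0 = ∅ := by
  simp [nat]

theorem nat_succ (n : ℕ) : nat (n + 1) = insert (nat n) (nat n) := by
  unfold nat
  rw [← Ordinal.toZFSet_add_one]
  push_cast
  rfl

theorem insert_mem {N : Set ZFSet.{0}} (hN : IsZFC N) {a : ZFSet.{0}} (ha : a ∈ N) :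
    insert a a ∈ N := by
  obtain ⟨c, hc, h⟩ := exists_union hN (singleton_mem hN ha) ha
  have : c = insert a a := by
    ext z
    rw [h, ZFSet.mem_insert_iff, ZFSet.mem_singleton]
  rwa [this] at hc

/-- `s` contains the empty set and is closed under the successor -/
def Ind (s : ZFSet.{0}) : Prop := ∅ ∈ s ∧ ∀ x ∈ s, insert x x ∈ s

theorem Ind.nat {s : ZFSet.{0}} (h : Ind s) (n : ℕ) : nat n ∈ s := by
  induction n with
  | zero => rw [nat_zero]; exact h.1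
  | succ n ih => rw [nat_succ]; exact h.2 _ ih

theorem exists_ind {N : Set ZFSet.{0}} (hN : IsZFC N) : ∃ w ∈ N, Ind w := by
  obtain ⟨w, hw, ⟨e, he, h1, h2⟩, h3⟩ := hN.infinity
  have he0 : e = ∅ := by
    rw [ZFSet.eq_empty]
    exact fun z hz => h1 z (hN.trans e he z hz) hz
  refine ⟨w, hw, he0 ▸ h2, fun x hx => ?_⟩
  have hxN := hN.trans w hw x hx
  obtain ⟨y, hy, hyw, h4⟩ := h3 x hxN hx
  have : y = insert x x := by
    ext z
    rw [ZFSet.mem_insert_iff]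
    constructor
    · intro hz
      exact ((h4 z (hN.trans y hy z hz)).1 hz).symm
    · rintro (rfl | hz)
      · exact (h4 _ hxN).2 (Or.inr rfl)
      · exact (h4 _ (hN.trans x hxN z hz)).2 (Or.inl hz)
  rwa [← this]

theorem Dfb.ind {N : Set ZFSet.{0}} (hN : IsZFC N) (i : ℕ) : Dfb N (fun v => Ind (v i)) :=
  .congr (.and (.exB hN i (.all (.neg (.mem 0 1))))
    (.allB hN i (.exB hN (i + 1) (.all (.iff (.mem 0 1) (.or (.eq 0 2) (.mem 0 2)))))))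
    fun v hv => by
    constructor
    · rintro ⟨⟨e, he, h1⟩, h2⟩
      have he : e ∈ v i := he
      have h1 : ∀ z ∈ N, z ∉ e := h1
      have he0 : e = ∅ := by
        rw [ZFSet.eq_empty]
        exact fun z hz => h1 z (hN.trans e (hN.trans _ (hv i) _ he) z hz) hz
      refine ⟨he0 ▸ he, fun x hx => ?_⟩
      obtain ⟨y, hy, h3⟩ := h2 x hx
      have hy : y ∈ v i := hy
      have h3 : ∀ z ∈ N, z ∈ y ↔ z = x ∨ z ∈ x := h3
      have hxN := hN.trans _ (hv i) _ hx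
      have hyN := hN.trans _ (hv i) _ hy
      have : y = insert x x := by
        ext z
        rw [ZFSet.mem_insert_iff]
        constructor
        · intro hz
          exact (h3 z (hN.trans y hyN z hz)).1 hz
        · rintro (rfl | hz)
          · exact (h3 _ hxN).2 (Or.inl rfl)
          · exact (h3 _ (hN.trans x hxN z hz)).2 (Or.inr hz)
      rwa [← this]
    · rintro ⟨h1, h2⟩
      refine ⟨⟨∅, h1, fun z _ => ?_⟩, fun x hx => ⟨insert x x, h2 x hx, fun z _ => ?_⟩⟩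
      · show ¬ z ∈ (∅ : ZFSet.{0})
        exact ZFSet.notMem_empty z
      · show z ∈ (insert x x : ZFSet.{0}) ↔ z = x ∨ z ∈ x
        exact ZFSet.mem_insert_iff

theorem om_mem {N : Set ZFSet.{0}} (hN : IsZFC N) : om ∈ N := by
  obtain ⟨w, hw, hi⟩ := exists_ind hN
  obtain ⟨b, hb, h⟩ := sep2 hN (R := fun x _ _ => ∀ s ∈ N, Ind s → x ∈ s)
    (.all (.imp (.ind hN 0) (.mem 1 0))) hw hw hw
  have hbi : Ind b := by
    constructor
    · exact (h _).2 ⟨hi.1, fun s _ hs => hs.1⟩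
    · intro x hx
      obtain ⟨h1, h2⟩ := (h x).1 hx
      exact (h _).2 ⟨hi.2 x h1, fun s hs1 hs2 => hs2.2 x (h2 s hs1 hs2)⟩
  have key : ∀ x : ZFSet.{0}, x ∈ b → x ∈ om := by
    intro x
    induction x using ZFSet.inductionOn with
    | _ x ih =>
      intro hx
      by_contra hxo
      have hxN := hN.trans b hb x hx
      obtain ⟨s, hs, h1⟩ := sep2 hN (R := fun z p _ => ¬ z = p) (.neg (.eq 0 1)) hb hxN hxN
      have hsi : Ind s := by
        constructor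
        · refine (h1 _).2 ⟨hbi.1, ?_⟩
          rintro rfl
          exact hxo (mem_om.2 ⟨0, nat_zero.symm⟩)
        · intro y hy
          obtain ⟨h2, -⟩ := (h1 y).1 hy
          refine (h1 _).2 ⟨hbi.2 y h2, ?_⟩
          rintro rfl
          obtain ⟨n, rfl⟩ := mem_om.1 (ih y (ZFSet.mem_insert_iff.2 (Or.inl rfl)) h2)
          exact hxo (mem_om.2 ⟨n + 1, (nat_succ n).symm⟩)
      exact ((h1 x).1 (((h x).1 hx).2 s hs hsi)).2 rfl
  have : b = om := by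
    ext z
    refine ⟨key z, fun hz => ?_⟩
    obtain ⟨n, rfl⟩ := mem_om.1 hz
    exact hbi.nat n
  rwa [← this]

theorem nat_mem {N : Set ZFSet.{0}} (hN : IsZFC N) (n : ℕ) : nat n ∈ N :=
  hN.trans om (om_mem hN) _ (mem_om.2 ⟨n, rfl⟩)

theorem nat_mem_om (n : ℕ) : nat n ∈ om := mem_om.2 ⟨n, rfl⟩

/-! ### Sequences of natural numbers -/

theorem mem_graph {x : ℕ → ℕ} {z : ZFSet.{0}} :
    z ∈ graph x ↔ ∃ n, z = ZFSet.pair (nat n) (nat (x n)) := by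
  unfold graph
  rw [ZFSet.mem_range]
  constructor
  · rintro ⟨n, rfl⟩
    exact ⟨n, rfl⟩
  · rintro ⟨n, rfl⟩
    exact ⟨n, rfl⟩

theorem pair_mem_graph {x : ℕ → ℕ} {m n : ℕ} :
    ZFSet.pair (nat m) (nat n) ∈ graph x ↔ n = x m := by
  rw [mem_graph]
  constructor
  · rintro ⟨k, hk⟩
    rw [ZFSet.pair_inj] at hk
    obtain ⟨h1, h2⟩ := hk
    rw [nat_inj h1]
    exact nat_inj h2
  · rintro rfl
    exact ⟨m, rfl⟩

theorem graph_inj {x y : ℕ → ℕ} (h : graph x = graph y) : x = y := by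
  funext n
  have : ZFSet.pair (nat n) (nat (x n)) ∈ graph y := h ▸ pair_mem_graph.2 rfl
  exact pair_mem_graph.1 this

/-- the set of all functions `ω → ω` of `N` -/
theorem exists_seqs {N : Set ZFSet.{0}} (hN : IsZFC N) :
    ∃ c ∈ N, ∀ z, z ∈ c ↔ ∃ x : ℕ → ℕ, z = graph x ∧ graph x ∈ N := by
  have ho := om_mem hN
  obtain ⟨p, hp, h1⟩ := exists_prod hN ho ho
  obtain ⟨q, hq, h2⟩ := exists_powerset hN hp
  obtain ⟨c, hc, h3⟩ := sep2 hN
    (R := fun z o _ => ∀ m ∈ o, ∃ n ∈ o, ∀ k ∈ o, ZFSet.pair m k ∈ z ↔ k = n)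
    (.allB hN 1 (.exB hN 2 (.allB hN 3 (.iff (.pair_mem hN 2 0 3) (.eq 0 1))))) hq ho ho
  refine ⟨c, hc, fun z => ?_⟩
  rw [h3, h2]
  constructor
  · rintro ⟨⟨hz, hzp⟩, h4⟩
    have h5 : ∀ m : ℕ, ∃ n : ℕ, ∀ k : ℕ, ZFSet.pair (nat m) (nat k) ∈ z ↔ k = n := by
      intro m
      obtain ⟨n', hn', h5⟩ := h4 _ (nat_mem_om m)
      obtain ⟨n, rfl⟩ := mem_om.1 hn'
      refine ⟨n, fun k => (h5 _ (nat_mem_om k)).trans ⟨fun h => nat_inj h, fun h => by rw [h]⟩⟩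
    choose x hx using h5
    have : z = graph x := by
      ext t
      constructor
      · intro ht
        obtain ⟨a, ha, b, hb, rfl⟩ := (h1 t).1 (hzp ht)
        obtain ⟨m, rfl⟩ := mem_om.1 ha
        obtain ⟨k, rfl⟩ := mem_om.1 hb
        exact pair_mem_graph.2 ((hx m k).1 ht)
      · intro ht
        obtain ⟨m, rfl⟩ := mem_graph.1 ht
        exact (hx m _).2 rfl
    exact ⟨x, this, this ▸ hz⟩
  · rintro ⟨x, rfl, hx⟩
    refine ⟨⟨hx, ?_⟩, ?_⟩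
    · intro t ht
      obtain ⟨m, rfl⟩ := mem_graph.1 ht
      exact (h1 _).2 ⟨_, nat_mem_om _, _, nat_mem_om _, rfl⟩
    · intro m hm
      obtain ⟨m, rfl⟩ := mem_om.1 hm
      refine ⟨_, nat_mem_om (x m), fun k hk => ?_⟩
      obtain ⟨k, rfl⟩ := mem_om.1 hk
      rw [pair_mem_graph]
      exact ⟨fun h => by rw [h], fun h => nat_inj h⟩

theorem graph_const {N : Set ZFSet.{0}} (hN : IsZFC N) (k : ℕ) : graph (fun _ => k) ∈ N := by
  obtain ⟨p, hp, h1⟩ := exists_prod hN (om_mem hN) (singleton_mem hN (nat_mem hN k))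
  have : p = graph (fun _ => k) := by
    ext z
    rw [h1, mem_graph]
    constructor
    · rintro ⟨a, ha, b, hb, rfl⟩
      obtain ⟨m, rfl⟩ := mem_om.1 ha
      rw [ZFSet.mem_singleton] at hb
      exact ⟨m, by rw [hb]⟩
    · rintro ⟨n, rfl⟩
      exact ⟨_, nat_mem_om n, _, ZFSet.mem_singleton.2 rfl, rfl⟩
  rwa [← this]

/-- a sequence that is definable from a relation on `ω × ω` -/
theorem graph_of_rel {N : Set ZFSet.{0}} (hN : IsZFC N)
    {R : ZFSet.{0} → ZFSet.{0} → ZFSet.{0} → ZFSet.{0} → ZFSet.{0} → ZFSet.{0} → Prop}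
    (h : Dfb N (fun v => R (v 0) (v 1) (v 2) (v 3) (v 4) (v 5))) {p q r s : ZFSet.{0}}
    (hp : p ∈ N) (hq : q ∈ N) (hr : r ∈ N) (hs : s ∈ N) {x : ℕ → ℕ}
    (hx : ∀ n m, R (nat n) (nat m) p q r s ↔ m = x n) : graph x ∈ N := by
  have ho := om_mem hN
  obtain ⟨w, hw, h1⟩ := exists_prod hN ho ho
  obtain ⟨c, hc, h3⟩ := sep4 hN
    (R := fun z p q r s => ∃ n ∈ N, ∃ m ∈ N, z = ZFSet.pair n m ∧ R n m p q r s)
    (.ex (.ex (.and (.pair hN 2 1 0) (h.ren fun i => if i = 0 then 1 else if i = 1 then 0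
      else i + 1)))) hw hp hq hr hs
  have : c = graph x := by
    ext z
    rw [h3]
    constructor
    · rintro ⟨hz, n, -, m, -, rfl, h4⟩
      obtain ⟨a, ha, b, hb, h5⟩ := (h1 _).1 hz
      obtain ⟨rfl, rfl⟩ := ZFSet.pair_inj.1 h5
      obtain ⟨n, rfl⟩ := mem_om.1 ha
      obtain ⟨m, rfl⟩ := mem_om.1 hb
      exact pair_mem_graph.2 ((hx n m).1 h4)
    · intro hz
      obtain ⟨n, rfl⟩ := mem_graph.1 hz
      refine ⟨(h1 _).2 ⟨_, nat_mem_om _, _, nat_mem_om _, rfl⟩, nat n, nat_mem hN n,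
        nat (x n), nat_mem hN _, rfl, (hx _ _).2 rfl⟩
  rwa [← this]

theorem exists_nat_of_pair_mem_graph {x : ℕ → ℕ} {n : ℕ} {a : ZFSet.{0}}
    (h : ZFSet.pair (nat n) a ∈ graph x) : a = nat (x n) := by
  obtain ⟨k, hk⟩ := mem_graph.1 h
  obtain ⟨h1, h2⟩ := ZFSet.pair_inj.1 hk
  rw [h2, nat_inj h1]

theorem graph_comp₂ {N : Set ZFSet.{0}} (hN : IsZFC N) {f : ℕ → ℕ → ℕ}
    (hf : Tab N fun k l m => m = f k l) {x y : ℕ → ℕ} (hx : graph x ∈ N) (hy : graph y ∈ N) :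
    graph (fun n => f (x n) (y n)) ∈ N := by
  obtain ⟨T, hT, h1⟩ := hf
  refine graph_of_rel hN
    (R := fun n m p q r _ => ∃ a ∈ N, ∃ b ∈ N, ∃ c ∈ N, c = ZFSet.pair a b ∧
      ZFSet.pair n a ∈ p ∧ ZFSet.pair n b ∈ q ∧ ZFSet.pair c m ∈ r)
    (.ex (.ex (.ex (.and (.pair hN 0 2 1) (.and (.pair_mem hN 3 2 5) (.and (.pair_mem hN 3 1 6)
      (.pair_mem hN 0 4 7)))))))
    hx hy hT hT ?_
  intro n m
  constructor
  · rintro ⟨a, -, b, -, c, -, rfl, h2, h3, h4⟩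
    rw [exists_nat_of_pair_mem_graph h2, exists_nat_of_pair_mem_graph h3] at h4
    obtain ⟨k, l, m', h5, h6⟩ := (h1 _).1 h4
    obtain ⟨h7, h8⟩ := ZFSet.pair_inj.1 h6
    obtain ⟨h9, h10⟩ := ZFSet.pair_inj.1 h7
    rw [nat_inj h8, nat_inj h9, nat_inj h10, h5]
  · rintro rfl
    refine ⟨nat (x n), nat_mem hN _, nat (y n), nat_mem hN _, _,
      (pair_mem_iff hN).2 ⟨nat_mem hN _, nat_mem hN _⟩, rfl, pair_mem_graph.2 rfl,
      pair_mem_graph.2 rfl, (h1 _).2 ⟨_, _, _, rfl, rfl⟩⟩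

theorem graph_comp₁ {N : Set ZFSet.{0}} (hN : IsZFC N) {f : ℕ → ℕ}
    (hf : Tab N fun k l m => l = 0 ∧ m = f k) {x : ℕ → ℕ} (hx : graph x ∈ N) :
    graph (fun n => f (x n)) ∈ N := by
  obtain ⟨T, hT, h1⟩ := hf
  refine graph_of_rel hN
    (R := fun n m p q r _ => ∃ a ∈ N, ∃ c ∈ N, c = ZFSet.pair a q ∧
      ZFSet.pair n a ∈ p ∧ ZFSet.pair c m ∈ r)
    (.ex (.ex (.and (.pair hN 0 1 5) (.and (.pair_mem hN 2 1 4) (.pair_mem hN 0 3 6)))))
    hx (nat_mem hN 0) hT hT ?_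
  intro n m
  constructor
  · rintro ⟨a, -, c, -, rfl, h2, h4⟩
    rw [exists_nat_of_pair_mem_graph h2] at h4
    obtain ⟨k, l, m', h5, h6⟩ := (h1 _).1 h4
    obtain ⟨h7, h8⟩ := ZFSet.pair_inj.1 h6
    obtain ⟨h9, h10⟩ := ZFSet.pair_inj.1 h7
    rw [nat_inj h8, nat_inj h9, h5.2]
  · rintro rfl
    refine ⟨nat (x n), nat_mem hN _, _,
      (pair_mem_iff hN).2 ⟨nat_mem hN _, nat_mem hN _⟩, rfl, pair_mem_graph.2 rfl,
      (h1 _).2 ⟨_, _, _, ⟨rfl, rfl⟩, rfl⟩⟩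

end Pool.Agent.Helper89.FV
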