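import Mathlib
import Pool.Agent.Helper26.FV.Core
import Pool.Agent.Helper26.FV.Red
import Pool.Agent.Helper26.FU.Asm
import Pool.Agent.Helper87.FK.Asm

/-!
# FV: assembly
-/

set_option autoImplicit false

namespace Pool.Agent.Helper26.FV

open MvPolynomial NumberField Cardinal Pool.Agent.Helper86.DML
open Pool.Agent.Helper26.FU (MultiHom GoodPad bd PurelyTranscendental exists_alg
  aleph0_lt_intermediate)
open Pool.Agent.Helper87.FK (GoodF Adm kbox comb comb_isHomogeneous map_comb)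

noncomputable section

/-- the dynamical Mordell-Lang conjecture for the products of the maps `P` of a class -/
def FullDML {X : Type} {n : ℕ} (P : X → Fin n → MvPolynomial (Fin n) ℂ) (𝒢 : Set X) : Prop :=
  ∀ (k : ℕ) (F : Fin k → X), (∀ b, F b ∈ 𝒢) → ∀ α : Fin k → Fin n → ℂ, (∀ b, α b ≠ 0) →
    ∀ V : Set (MvPolynomial (Fin k × Fin n) ℂ), (∀ G ∈ V, MultiHom G) → ∃ A : Finset (ℕ × ℕ),
      {m : ℕ | ∀ G ∈ V, eval (fun c => (pmap (P (F c.1)))^[m] (α c.1) c.2) G = 0} =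
        {m | ∃ q ∈ A, ∃ j, m = q.1 + q.2 * j}

/-- the uniform dynamical Mordell-Lang conjecture for the products of the maps of a class -/
def UnifDML {X : Type} {n : ℕ} (L₀ : Subfield ℂ) (C : ℕ → ℕ → ℕ → ℕ) (W Q : ℕ → ℕ → ℕ)
    (P : X → Fin n → MvPolynomial (Fin n) ℂ) (𝒢 : Set X) : Prop :=
  ∀ (k D δ : ℕ) (F : Fin k → X), (∀ b, F b ∈ 𝒢) → ∀ E : Subfield ℂ, PurelyTranscendental L₀ E →
    ∀ M : IntermediateField E ℂ, FiniteDimensional E M → Module.finrank E M ≤ D →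
    ∀ α : Fin k → Fin n → ℂ, (∀ b, α b ≠ 0) → (∀ b i, α b i ∈ M) →
    ∀ V : Set (MvPolynomial (Fin k × Fin n) ℂ), (∀ G ∈ V, MultiHom G) →
    (∀ G ∈ V, G.totalDegree ≤ δ) →
    ∃ A T : Finset ℕ, A.card ≤ C k D δ ∧ (∀ a ∈ T, a < W k D + Q k D) ∧
      {m : ℕ | ∀ G ∈ V, eval (fun c => (pmap (P (F c.1)))^[m] (α c.1) c.2) G = 0} =
        {m | m ∈ A ∨ ∃ a ∈ T, ∃ j, m = a + Q k D * j}

/-- the forms over the integers of a number field with given reduction -/
def Cls {N : ℕ} (d : ℕ) {K : Type} [Field K] [NumberField K] (P : Ideal (𝓞 K))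
    (Fb : Fin (N + 1) → MvPolynomial (Fin (N + 1)) (𝓞 K ⧸ P)) :
    Set (Fin (N + 1) → MvPolynomial (Fin (N + 1)) (𝓞 K)) :=
  {F | (∀ i, (F i).IsHomogeneous d) ∧ ∀ i, map (Ideal.Quotient.mk P) (F i) = Fb i}

theorem single {N d : ℕ} (hd : 2 ≤ d) {K : Type} [Field K] [NumberField K] (σ : K →+* ℂ)
    {P : Ideal (𝓞 K)} (hP : Adm d 1 P) (Fb : Fin (N + 1) → MvPolynomial (Fin (N + 1)) (𝓞 K ⧸ P))
    (hG : ∀ _ : P.IsMaximal, @GoodF (N + 1) (𝓞 K ⧸ P) (Ideal.Quotient.field P) Fb) :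
    ∃ (C : ℕ → ℕ → ℕ → ℕ) (W Q : ℕ → ℕ → ℕ), (∀ k D, 1 ≤ Q k D) ∧
      (∀ F ∈ Cls d P Fb, ∀ z : Fin (N + 1) → ℂ,
        (∀ i, eval z (map (σ.comp (algebraMap (𝓞 K) K)) (F i)) = 0) → z = 0) ∧
      FullDML (fun F i => map (σ.comp (algebraMap (𝓞 K) K)) (F i)) (Cls d P Fb) ∧
      UnifDML σ.fieldRange C W Q (fun F i => map (σ.comp (algebraMap (𝓞 K) K)) (F i))
        (Cls d P Fb) := by
  classical
  obtain ⟨p, hpp, hp3, hpP⟩ := hP.exists_prime hd
  have := Fact.mk hpp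
  have hmax := hP.isMaximal hd
  let := Ideal.Quotient.field P
  have hgoodF := hG hmax
  obtain ⟨φ, hφ⟩ := Pool.Agent.Helper87.FK.exists_embedding P hmax hpP
  have hKc : Countable K := (Module.finBasis ℚ K).equivFun.injective.countable
  obtain ⟨τ₀', hτ₀'⟩ := Pool.Agent.Helper87.FK.exists_iso_ext σ φ
  let τ₀ : ℂ →+* PadicAlgCl p := τ₀'
  have hτ₀ : ∀ x, τ₀ (σ x) = φ x := hτ₀'
  -- the finite extension of `ℚ_p`
  let b := Module.finBasis ℚ K
  let K₀ : IntermediateField ℚ_[p] (PadicAlgCl p) :=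
    IntermediateField.adjoin ℚ_[p] (Set.range fun j => φ (b j))
  have hK₀fin : FiniteDimensional ℚ_[p] K₀ :=
    IntermediateField.finiteDimensional_adjoin fun x _ =>
      (Algebra.IsAlgebraic.isAlgebraic x).isIntegral
  have hφK : ∀ x, φ x ∈ K₀ := by
    intro x
    rw [← b.sum_repr x, map_sum]
    refine sum_mem fun i _ => ?_
    rw [Algebra.smul_def, map_mul]
    refine mul_mem ?_ (IntermediateField.subset_adjoin _ _ ⟨i, rfl⟩)
    have h1 : φ (algebraMap ℚ K (b.repr x i)) = ((b.repr x i : ℚ) : PadicAlgCl p) := by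
      rw [eq_ratCast, map_ratCast]
    rw [h1]
    exact SubfieldClass.ratCast_mem K₀ _
  -- good reduction under every embedding which extends `φ`
  have hgood : ∀ τ : ℂ →+* PadicAlgCl p, (∀ x, τ (σ x) = φ x) → ∀ F ∈ Cls d P Fb,
      ∀ S : Set (PadicAlgCl p),
      GoodPad S (fun i => map τ (map (σ.comp (algebraMap (𝓞 K) K)) (F i))) := by
    intro τ hτ F hF S
    have h1 : (fun i => map τ (map (σ.comp (algebraMap (𝓞 K) K)) (F i))) =
        fun i => map (φ.comp (algebraMap (𝓞 K) K)) (F i) := by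
      funext i
      have h0 : τ.comp (σ.comp (algebraMap (𝓞 K) K)) = φ.comp (algebraMap (𝓞 K) K) :=
        RingHom.ext fun x => hτ x
      rw [map_map, h0]
    rw [h1]
    refine goodPad_of_goodF (Ideal.Quotient.mk P) Ideal.Quotient.mk_surjective
      (φ.comp (algebraMap (𝓞 K) K)) (fun x => ?_) (fun x hx => ?_) F ?_ S
    · exact Pool.Agent.Helper87.FK.norm_le_one_of_ringOfIntegers φ x
    · exact hφ x (Ideal.Quotient.eq_zero_iff_mem.1 hx)
    · have h2 : (fun i => map (Ideal.Quotient.mk P) (F i)) = Fb := funext hF.2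
      rw [h2]
      exact hgoodF
  have hcoef : ∀ τ : ℂ →+* PadicAlgCl p, (∀ x, τ (σ x) = φ x) →
      ∀ F : Fin (N + 1) → MvPolynomial (Fin (N + 1)) (𝓞 K), ∀ i t,
      τ (coeff t (map (σ.comp (algebraMap (𝓞 K) K)) (F i))) =
        φ (coeff t (F i) : 𝓞 K) := by
    intro τ hτ F i t
    rw [coeff_map]
    exact hτ _
  choose Kf hKf using fun k D δ => coreC (p := p) hp3 k (N + 1) d D δ (by omega)
  let W : ℕ → ℕ → ℕ := fun k D => bd (k * (N + 1)) p (Module.finrank ℚ_[p] K₀ * D)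
  let Q : ℕ → ℕ → ℕ := fun k D => (W k D).factorial * (W k D).factorial
  have hQ : ∀ k D, 1 ≤ Q k D := fun k D =>
    Nat.mul_pos (Nat.factorial_pos _) (Nat.factorial_pos _)
  refine ⟨fun k D δ => W k D + Q k D * Kf k (Module.finrank ℚ_[p] K₀ * D) δ, W, Q, hQ,
    ?_, ?_, ?_⟩
  · intro F hF z hz
    exact isEndoC (d := d) _ (fun i => (hF.1 i).map _) τ₀ (hgood τ₀ hτ₀ F hF _) z hz
  · -- all points
    intro k F hF α hα V hV
    let S₀ : Set (PadicAlgCl p) := (Set.range fun c : Fin k × Fin (N + 1) => τ₀ (α c.1 c.2)) ∪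
      Set.range fun j => φ (b j)
    have hS₀ : S₀.Finite := (Set.finite_range _).union (Set.finite_range _)
    let L : IntermediateField ℚ_[p] (PadicAlgCl p) := IntermediateField.adjoin ℚ_[p] S₀
    have hLfin : FiniteDimensional ℚ_[p] L := by
      have : Finite S₀ := hS₀.to_subtype
      exact IntermediateField.finiteDimensional_adjoin fun x _ =>
        (Algebra.IsAlgebraic.isAlgebraic x).isIntegral
    have hLfin' : FiniteDimensional ℚ_[p] L.toSubalgebra := hLfin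
    have hαL : ∀ b i, τ₀ (α b i) ∈ L := fun b i =>
      IntermediateField.subset_adjoin _ _ (Or.inl ⟨(b, i), rfl⟩)
    have hK₀L : K₀ ≤ L := IntermediateField.adjoin.mono _ _ _ Set.subset_union_right
    set D := Module.finrank ℚ_[p] L.toSubalgebra with hD
    set W' := bd (k * (N + 1)) p D with hW'
    have hdich : ∀ G : MvPolynomial (Fin k × Fin (N + 1)) ℂ, MultiHom G → ∀ r,
        {m | eval (fun c => (pmap (fun i => map (σ.comp (algebraMap (𝓞 K) K))
          (F c.1 i)))^[W' + r + W'.factorial * W'.factorial * m] (α c.1) c.2) G = 0}.Finite ∨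
        ∀ m, eval (fun c => (pmap (fun i => map (σ.comp (algebraMap (𝓞 K) K))
          (F c.1 i)))^[W' + r + W'.factorial * W'.factorial * m] (α c.1) c.2) G = 0 := by
      intro G hGm r
      rcases hKf k D G.totalDegree L.toSubalgebra le_rfl
        (fun b i => map (σ.comp (algebraMap (𝓞 K) K)) (F b i)) (fun b i => ((hF b).1 i).map _) τ₀
        (fun b i t => by
          rw [hcoef τ₀ hτ₀]
          exact Pool.Agent.Helper87.FK.norm_le_one_of_ringOfIntegers φ _)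
        (fun b i t => by
          rw [hcoef τ₀ hτ₀]
          exact hK₀L (hφK _)) (fun b => hgood τ₀ hτ₀ _ (hF b) _) α hα
        (fun b i j => by rw [map_div₀]; exact (show _ ∈ L from div_mem (hαL b i) (hαL b j)))
        G hGm le_rfl r with h2 | h2
      · exact Or.inl (Set.finite_of_encard_le_coe h2)
      · exact Or.inr h2
    refine Pool.Agent.Helper26.FD.ap_of_dich _
      (Nat.mul_pos (Nat.factorial_pos W') (Nat.factorial_pos W')) (n₀ := W') fun r => ?_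
    by_cases hall : ∀ G ∈ V, ∀ m, eval (fun c => (pmap (fun i =>
        map (σ.comp (algebraMap (𝓞 K) K)) (F c.1 i)))^[W' + r +
        W'.factorial * W'.factorial * m] (α c.1) c.2) G = 0
    · right
      intro m G hGV
      exact hall G hGV m
    · left
      push Not at hall
      obtain ⟨G, hGV, m, hm⟩ := hall
      rcases hdich G (hV G hGV) r with h2 | h2
      · exact h2.subset fun m' hm' => hm' G hGV
      · exact absurd (h2 m) hm
  · -- uniformity
    intro k D δ F hF E hE M hMfin hMD α hα hαM V hV hVδ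
    obtain ⟨r₀, t, ht, hEt⟩ := hE
    have hL₀c : ((σ.fieldRange : Subfield ℂ) : Set ℂ).Countable := by
      have h2 : ((σ.fieldRange : Subfield ℂ) : Set ℂ) = Set.range σ := by
        ext z
        simp
      rw [h2]
      exact Set.countable_range _
    have hL₀K : ∀ z ∈ σ.fieldRange, τ₀ z ∈ K₀.toSubfield := by
      rintro _ ⟨x, rfl⟩
      rw [hτ₀]
      exact hφK x
    obtain ⟨τ, hτ, hτt⟩ := Pool.Agent.Helper26.FU.exists_embedding σ.fieldRange hL₀c τ₀
      K₀.toSubfield (aleph0_lt_intermediate K₀) hL₀K ht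
    have hτφ : ∀ x, τ (σ x) = φ x := fun x => (hτ _ ⟨x, rfl⟩).trans (hτ₀ x)
    have hEK : ∀ z ∈ E, τ z ∈ K₀ := by
      intro z hz
      have h2 : E ≤ K₀.toSubfield.comap τ := by
        rw [hEt, Subfield.closure_le]
        rintro w (hw | ⟨i, rfl⟩)
        · have h3 := hL₀K w hw
          rw [← hτ w hw] at h3
          exact h3
        · exact hτt i
      exact h2 hz
    obtain ⟨L, hLfin, hLD, hML, hKL⟩ := exists_alg K₀ τ E hEK M
    have hD' : Module.finrank ℚ_[p] L ≤ Module.finrank ℚ_[p] K₀ * D :=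
      hLD.trans (Nat.mul_le_mul_left _ hMD)
    refine ap_of_dich_early _ (hQ k D) fun r => ?_
    by_cases hall : ∀ G ∈ V, ∀ m, eval (fun c => (pmap (fun i =>
        map (σ.comp (algebraMap (𝓞 K) K)) (F c.1 i)))^[W k D + r + Q k D * m] (α c.1) c.2) G = 0
    · right
      intro m G hGV
      exact hall G hGV m
    · left
      push Not at hall
      obtain ⟨G, hGV, m, hm⟩ := hall
      rcases hKf k (Module.finrank ℚ_[p] K₀ * D) δ L hD'
        (fun b i => map (σ.comp (algebraMap (𝓞 K) K)) (F b i)) (fun b i => ((hF b).1 i).map _) τ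
        (fun b i t => by
          rw [hcoef τ hτφ]
          exact Pool.Agent.Helper87.FK.norm_le_one_of_ringOfIntegers φ _)
        (fun b i t => by
          rw [hcoef τ hτφ]
          exact hKL _ (hφK _)) (fun b => hgood τ hτφ _ (hF b) _) α hα
        (fun b i j => hML _ (div_mem (hαM b i) (hαM b j))) G (hV G hGV) (hVδ G hGV) r
        with h2 | h2
      · refine le_trans (Set.encard_le_encard ?_) h2
        intro m' hm'
        exact hm' G hGV
      · exact absurd (h2 m) hm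

theorem fv_main (N d : ℕ) (hd : 2 ≤ d) (K : Type) [Field K] [NumberField K] (σ : K →+* ℂ)
    {ι : Type} [Fintype ι] (e : Module.Basis ι ℤ (𝓞 K)) :
    ∃ (𝒢 : Ideal (𝓞 K) → Set (ι → Fin (N + 1) → MvPolynomial (Fin (N + 1)) ℤ))
      (C : Ideal (𝓞 K) → ℕ → ℕ → ℕ → ℕ) (W Q : Ideal (𝓞 K) → ℕ → ℕ → ℕ),
      (∀ m : ℕ, 1 ≤ m → ∀ S : Finset (Ideal (𝓞 K)), (∀ P ∈ S, Adm d m P) →
        ∀ (A : ι → Fin (N + 1) → MvPolynomial (Fin (N + 1)) ℝ) (ε : ℝ)
          (F₀ : ι → Fin (N + 1) → MvPolynomial (Fin (N + 1)) ℤ),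
          (∀ j i, (A j i).IsHomogeneous d) → 0 < ε → (∀ j i, (F₀ j i).IsHomogeneous d) →
        ∀ η : ℝ, 0 < η → ∃ B₀ : ℕ, ∀ B : ℕ, B₀ ≤ B → (kbox N d m A ε F₀ B).Finite ∧
          (1 - ∏ P ∈ S, (1 - 1 / (Ideal.absNorm P : ℝ) ^ ((N + 1) * (N + d).choose d)) - η) *
            ((kbox N d m A ε F₀ B).ncard : ℝ) ≤
              ((kbox N d m A ε F₀ B ∩ {F | ∃ P ∈ S, F ∈ 𝒢 P}).ncard : ℝ)) ∧
      ∀ P : Ideal (𝓞 K), Adm d 1 P → (∀ k D, 1 ≤ Q P k D) ∧
        (∀ F ∈ 𝒢 P, (∀ j i, (F j i).IsHomogeneous d) ∧ ∀ z : Fin (N + 1) → ℂ,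
          (∀ i, eval z (comb (fun j => σ (e j)) F i) = 0) → z = 0) ∧
        FullDML (fun F => comb (fun j => σ (e j)) F) (𝒢 P) ∧
        UnifDML σ.fieldRange (C P) (W P) (Q P) (fun F => comb (fun j => σ (e j)) F) (𝒢 P) := by
  classical
  have hex : ∀ P : Ideal (𝓞 K), ∃ Fb : Fin (N + 1) → MvPolynomial (Fin (N + 1)) (𝓞 K ⧸ P),
      Adm d 1 P → (∀ i, (Fb i).IsHomogeneous d) ∧
        ∀ _ : P.IsMaximal, @GoodF (N + 1) (𝓞 K ⧸ P) (Ideal.Quotient.field P) Fb := by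
    intro P
    by_cases hP : Adm d 1 P
    · obtain ⟨F, h1, h2⟩ := Pool.Agent.Helper87.FK.exists_good_form (N := N) hd hP
      exact ⟨F, fun _ => ⟨h1, h2⟩⟩
    · exact ⟨0, fun h => absurd h hP⟩
  choose Fb hFb using hex
  have hs : ∀ P : Ideal (𝓞 K), ∃ (C : ℕ → ℕ → ℕ → ℕ) (W Q : ℕ → ℕ → ℕ), Adm d 1 P →
      (∀ k D, 1 ≤ Q k D) ∧
      (∀ F ∈ Cls d P (Fb P), ∀ z : Fin (N + 1) → ℂ,
        (∀ i, eval z (map (σ.comp (algebraMap (𝓞 K) K)) (F i)) = 0) → z = 0) ∧
      FullDML (fun F i => map (σ.comp (algebraMap (𝓞 K) K)) (F i)) (Cls d P (Fb P)) ∧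
      UnifDML σ.fieldRange C W Q (fun F i => map (σ.comp (algebraMap (𝓞 K) K)) (F i))
        (Cls d P (Fb P)) := by
    intro P
    by_cases hP : Adm d 1 P
    · obtain ⟨C, W, Q, h⟩ := single hd σ hP (Fb P) (hFb P hP).2
      exact ⟨C, W, Q, fun _ => h⟩
    · exact ⟨0, 0, 0, fun h => absurd h hP⟩
  choose C W Q h using hs
  have hadm : ∀ {m : ℕ} {P : Ideal (𝓞 K)}, Adm d m P → Adm d 1 P := by
    rintro m P ⟨h1, h2, h3⟩
    refine ⟨h1, h2, ?_⟩
    rw [mul_one]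
    exact Nat.Coprime.coprime_mul_right_right h3
  let 𝒢 : Ideal (𝓞 K) → Set (ι → Fin (N + 1) → MvPolynomial (Fin (N + 1)) ℤ) := fun P =>
    {F | (∀ j i, (F j i).IsHomogeneous d) ∧
      ∀ i, map (Ideal.Quotient.mk P) (comb (fun j => (e j : 𝓞 K)) F i) = Fb P i}
  have hcls : ∀ P, ∀ F ∈ 𝒢 P, comb (fun j => (e j : 𝓞 K)) F ∈ Cls d P (Fb P) := fun P F hF =>
    ⟨comb_isHomogeneous _ hF.1, hF.2⟩
  have hmap : ∀ F : ι → Fin (N + 1) → MvPolynomial (Fin (N + 1)) ℤ,
      (fun i => map (σ.comp (algebraMap (𝓞 K) K)) (comb (fun j => (e j : 𝓞 K)) F i)) =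
        comb (fun j => σ (e j)) F := fun F => funext fun i => map_comb _ _ _ i
  refine ⟨𝒢, C, W, Q, ?_, fun P hP => ?_⟩
  · intro m hm S hS A ε F₀ hA hε hF₀ η hη
    obtain ⟨B₀, hB₀⟩ := Pool.Agent.Helper87.FK.fk_count N d m K e hd hm S hS Fb
      (fun P hPS => (hFb P (hadm (hS P hPS))).1) A ε F₀ hA hε hF₀ η hη
    refine ⟨B₀, fun B hB => ?_⟩
    obtain ⟨hfin, h1⟩ := hB₀ B hB
    refine ⟨hfin, h1.trans (Nat.cast_le.2 (Set.ncard_le_ncard ?_
      (hfin.subset Set.inter_subset_left)))⟩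
    rintro F ⟨hF, P, hPS, hred⟩
    exact ⟨hF, P, hPS, fun j i => (hF j i).1, hred⟩
  · obtain ⟨hQ, h1, h2, h3⟩ := h P hP
    refine ⟨hQ, fun F hF => ⟨hF.1, fun z hz => ?_⟩, ?_, ?_⟩
    · refine h1 _ (hcls P F hF) z fun i => ?_
      rw [congrFun (hmap F) i]
      exact hz i
    · intro k F hF α hα V hV
      have h4 := h2 k (fun b => comb (fun j => (e j : 𝓞 K)) (F b)) (fun b => hcls P _ (hF b)) α hα
        V hV
      simp only [hmap] at h4
      exact h4
    · intro k D δ F hF E hE M hMfin hMD α hα hαM V hV hVδ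
      have h4 := h3 k D δ (fun b => comb (fun j => (e j : 𝓞 K)) (F b))
        (fun b => hcls P _ (hF b)) E hE M hMfin hMD α hα hαM V hV hVδ
      simp only [hmap] at h4
      exact h4

end

end Pool.Agent.Helper26.FV
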